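import Pool.Agent.H26.Achieve2

set_option autoImplicit false

namespace Pool.Agent.Results.MP_c19edd_an.Cantor

open Pool.Agent.H26.Achieve

theorem result :
    Nonempty ({s : ℝ | ∃ A : Set ℕ, (∀ n ∈ A, 1 ≤ n) ∧
      s = ∑' n : A, (1 / (2 : ℝ) ^ (n : ℕ) + (-1) ^ (n : ℕ) / (3 : ℝ) ^ (n : ℕ))} ≃ₜ cantorSet) := by
  have e : ∀ n : ℕ, (1 / (2 : ℝ) ^ n + (-1) ^ n / (3 : ℝ) ^ n) - h n = (-1) ^ n * (1 / 3) ^ n := by
    intro n; unfold h; rw [one_div_pow, one_div_pow]; ring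
  refine cantor (fun n => 1 / (2 : ℝ) ^ n + (-1) ^ n / (3 : ℝ) ^ n) (3 / 2) (1 / 2) (1 / 3)
    (by norm_num) (by norm_num) (by norm_num) (by norm_num) (fun n => ?_) (fun n => ?_) ?_
  · have h1 := e n
    rcases Nat.even_or_odd n with hn | hn
    · rw [hn.neg_one_pow]; positivity
    · rw [hn.neg_one_pow] at h1 ⊢
      have h2 : (1 / 3 : ℝ) ^ n < h n :=
        pow_lt_pow_left₀ (by norm_num) (by norm_num) (by rintro rfl; exact absurd hn (by decide))
      linarith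
  · rw [e, abs_mul, abs_pow, abs_neg, abs_one, one_pow, one_mul, abs_of_pos (by positivity),
      pow_succ]
    linarith
  · intro r _ hr n
    obtain ⟨m, h1, h2, hm⟩ : ∃ m, n ≤ m ∧ m ≤ n + 1 ∧ Even m := by
      rcases Nat.even_or_odd n with hn | hn
      · exact ⟨n, le_rfl, by omega, hn⟩
      · exact ⟨n + 1, by omega, le_rfl, hn.add_one⟩
    refine ⟨m, h1, h2, ?_⟩
    have a1 := e m
    have a2 := (abs_le.mp (hr (m + 1))).2
    have a3 := h_succ m
    rw [hm.neg_one_pow] at a1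
    rw [pow_succ] at a2
    simp only [hm.neg_one_pow]
    linarith

end Pool.Agent.Results.MP_c19edd_an.Cantor
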